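import Pool.Agent.H44.DV.Targets

/-!
# A free interval which is not attracted has infinitely many right corners nearby
-/

set_option autoImplicit false

namespace Pool.Agent.H6.DV

open Pool.Agent.H44.DU

lemma wd_length {n : ℕ} (W : ℕ → Side n) (k : ℕ) : (wd W k).length = k := by
  simp [wd]

lemma wd_succ {n : ℕ} (W : ℕ → Side n) (k : ℕ) : wd W (k + 1) = wd W k ++ [W k] := by
  simp [wd, List.range_succ]

lemma wd_getElem {n : ℕ} (W : ℕ → Side n) (k i : ℕ) (h : i < (wd W k).length) :
    (wd W k)[i] = W i := by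
  simp [wd]

lemma wd_head {n : ℕ} (W : ℕ → Side n) (k : ℕ) (r : Side n) (h : r ∈ (wd W k).head?) :
    r = W 0 := by
  cases k with
  | zero => simp [wd] at h
  | succ k =>
    rw [wd, List.range_succ_eq_map] at h
    simp at h
    exact h.symm

/-- Good indices: the right corner is at most all later ones. -/
lemma good_exists (f : ℕ → ℝ) (h : ∀ C > (0 : ℝ), ∃ N : ℕ, ∀ k ≥ N, C < f k) (N : ℕ) :
    ∃ m ≥ N, ∀ j ≥ m, f m ≤ f j := by
  obtain ⟨N', hN'⟩ := h (max 1 (f N)) (lt_of_lt_of_le one_pos (le_max_left _ _))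
  obtain ⟨m, hm, hmin⟩ := Finset.exists_min_image (Finset.Icc N (max N N')) f
    ⟨N, by simp⟩
  rw [Finset.mem_Icc] at hm
  refine ⟨m, hm.1, fun j hj => ?_⟩
  rcases le_or_gt j (max N N') with h1 | h1
  · exact hmin j (Finset.mem_Icc.2 ⟨hm.1.trans hj, h1⟩)
  · have h2 := hN' j ((le_max_right N N').trans h1.le)
    have h3 := hmin N (Finset.mem_Icc.2 ⟨le_rfl, le_max_left _ _⟩)
    exact h3.trans ((le_max_right _ _).trans h2.le)

theorem pf_CL (h1 : D_RC) (h2 : D_SH) (h3 : T_FD) : D_CL := by
  intro n S t W c d hcd hfr hnp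
  by_contra hcon
  push Not at hcon
  apply hnp
  -- the good indices
  have hgood := good_exists (fun k => S.rc t W k) (fun C hC => hcon C hC)
  have hinf : {m : ℕ | ∀ j ≥ m, S.rc t W m ≤ S.rc t W j}.Infinite := by
    rw [Set.infinite_iff_exists_gt]
    intro a
    obtain ⟨m, hm, hm'⟩ := hgood (a + 1)
    exact ⟨m, hm', by omega⟩
  obtain ⟨m, hm, m', hm', hlt, hW⟩ := hinf.exists_lt_map_eq_of_mapsTo
    (f := W) (t := Set.univ) (fun _ _ => Set.mem_univ _) Set.finite_univ
  simp only [ge_iff_le, Set.mem_ofPred_eq] at hm hm'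
  -- a point of the interval
  set y : ℝ := (c + d) / 2 with hy
  have hrun : ∀ k, S.Run t (wd W k) y := fun k => hfr k y (by rw [hy]; linarith)
    (by rw [hy]; linarith)
  have hJ : ∀ a : ℕ, S.InJ t (W a) (S.g t (wd W a) y) := by
    intro a
    have h4 := hrun (a + 1)
    rw [wd_succ, S.run_append, S.run_single] at h4
    exact h4.2.2
  -- the claim
  have key : ∀ (a : ℕ), (∀ j ≥ a, S.rc t W a ≤ S.rc t W j) → ∀ x, S.g t (wd W a) y < x →
      x < xi t (S.P (W a)) → ∀ k, S.Run t (wd (fun i => W (a + i)) k) x := by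
    intro a ha x hx1 hx2 k
    rw [h1]
    constructor
    · intro j hj
      have h5 := ((h1 n S t y W (a + k)).1 (hrun (a + k))).1 (a + j) (by omega)
      simpa only [add_assoc] using h5
    · intro j hj
      have h6 := ((h1 n S t y W (a + k)).1 (hrun (a + k))).2 (a + j) (by omega)
      obtain ⟨h7, h8, -⟩ := h2 n S t W a j
      constructor
      · rw [h8]
        exact ((S.g_lt_iff t (wd W a)).2 h6.1).trans hx1
      · rw [h7]
        have h9 := (h2 n S t W a 0).1
        have h10 : S.rc t (fun i => W (a + i)) 0 = xi t (S.P (W a)) := by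
          have h0 : wd (fun i => W (a + i)) 0 = [] := by simp [wd]
          unfold Surf.rc Surf.dev
          rw [h0]
          simp [Surf.A, Surf.B]
        rw [h10] at h9
        have h11 := (S.g_le_iff t (wd W a)).2 (ha (a + j) (by omega))
        have h12 : S.g t (wd W a) (S.rc t W (a + 0)) ≤ S.g t (wd W a) (S.rc t W (a + j)) := by
          simpa only [add_zero] using h11
        rw [← h9] at h12
        exact lt_of_lt_of_le hx2 h12
  obtain ⟨x, hx1, hx2⟩ := exists_between (max_lt (hJ m).2 (hW ▸ (hJ m').2 :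
    S.g t (wd W m') y < xi t (S.P (W m))))
  have hr1 := key m hm x ((le_max_left _ _).trans_lt hx1) hx2
  have hr2 := key m' hm' x ((le_max_right _ _).trans_lt hx1) (hW ▸ hx2)
  have heq : ∀ k, wd (fun i => W (m + i)) k = wd (fun i => W (m' + i)) k := by
    intro k
    have h13 := h3 n S t x _ _ (hr1 k) (hr2 k) (by
      intro r hr r' hr'
      have e1 := wd_head _ _ _ hr
      have e2 := wd_head _ _ _ hr'
      rw [e1, e2]
      simp only [add_zero]
      rw [hW])
    rcases h13 with h14 | h14
    · exact h14.eq_of_length (by rw [wd_length, wd_length])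
    · exact (h14.eq_of_length (by rw [wd_length, wd_length])).symm
  have hall : ∀ i, W (m + i) = W (m' + i) := by
    intro i
    have h15 := heq (i + 1)
    rw [wd_succ, wd_succ] at h15
    have h16 := List.append_inj_right' h15 (by simp)
    simpa using h16
  refine ⟨m, m' - m, by omega, fun k hk => ?_⟩
  have h17 := hall (k - m)
  rw [show m + (k - m) = k by omega, show m' + (k - m) = k + (m' - m) by omega] at h17
  exact h17.symm

end Pool.Agent.H6.DV
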